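import Pool.Agent.H99.SG.Three

/-!
# Pairs of edges in a common negative circle of a 3-connected signed graph

A signed graph is a graph `G` with `σ : Sym2 V → ZMod 2`; the edge `e` is negative if `σ e = 1` and
positive if `σ e = 0`.

* For distinct edges `e`, `f` of a finite 3-connected signed graph, all circles through `e` and `f`
  have the same sign if and only if `Σ - {e, f}` is balanced, or `e` and `f` share a vertex `v` with
  `Σ - v` balanced.
* A finite 3-connected signed graph has the negative pair property if and only if there is no vertex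
  `v` with `Σ - v` balanced and there are no two edges `e`, `f` with `Σ - {e, f}` balanced.
* In terms of switching: the property fails exactly when, after switching, all negative edges are at
  one vertex or there are at most two negative edges.
-/

set_option autoImplicit false

namespace Pool.Agent.Results.MP_790549_co.ThreeConnected

open SimpleGraph

/-- the sign of a walk, written additively: `0` is positive, `1` is negative -/
def sgn {V : Type} {G : SimpleGraph V} (σ : Sym2 V → ZMod 2) {u v : V} (w : G.Walk u v) : ZMod 2 :=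
  (w.edges.map σ).sum

/-- the negative pair property: every two edges lie in a common negative circle -/
def NegPair {V : Type} (G : SimpleGraph V) (σ : Sym2 V → ZMod 2) : Prop :=
  ∀ e ∈ G.edgeSet, ∀ f ∈ G.edgeSet, e ≠ f →
    ∃ (u : V) (w : G.Walk u u), w.IsCycle ∧ e ∈ w.edges ∧ f ∈ w.edges ∧ sgn σ w = 1

/-- `Σ` without the edges in `F` is balanced: all circles without an edge in `F` are positive -/
def BalancedOff {V : Type} (G : SimpleGraph V) (σ : Sym2 V → ZMod 2) (F : Set (Sym2 V)) : Prop :=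
  ∀ (u : V) (w : G.Walk u u), w.IsCycle → (∀ g ∈ w.edges, g ∉ F) → sgn σ w = 0

/-- `Σ - v` is balanced: all circles which do not pass through `v` are positive -/
def BalancedOffVertex {V : Type} (G : SimpleGraph V) (σ : Sym2 V → ZMod 2) (v : V) : Prop :=
  ∀ (u : V) (w : G.Walk u u), w.IsCycle → v ∉ w.support → sgn σ w = 0

/-- 3-connected: more than three vertices, and connected after the removal of at most two vertices -/
def ThreeConn {V : Type} (G : SimpleGraph V) : Prop :=
  4 ≤ Nat.card V ∧ ∀ S : Set V, S.ncard ≤ 2 → (G.induce Sᶜ).Connected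

/-- all circles through both `e` and `f` have the same sign -/
def SameSign {V : Type} (G : SimpleGraph V) (σ : Sym2 V → ZMod 2) (e f : Sym2 V) : Prop :=
  ∃ ε : ZMod 2, ∀ (u : V) (w : G.Walk u u), w.IsCycle → e ∈ w.edges → f ∈ w.edges → sgn σ w = ε

/-- the edge `xy` becomes positive when the vertices `z` with `s z = 1` are switched -/
def PosAfter {V : Type} (σ : Sym2 V → ZMod 2) (s : V → ZMod 2) (x y : V) : Prop :=
  σ s(x, y) + s x + s y = 0

theorem switch_iff {V : Type} (G : SimpleGraph V) (σ : Sym2 V → ZMod 2) (F : Set (Sym2 V)) :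
    BalancedOff G σ F ↔ ∃ s : V → ZMod 2, ∀ x y, G.Adj x y → s(x, y) ∉ F → PosAfter σ s x y := by
  constructor
  · intro h
    obtain ⟨s, hs⟩ := CommonNegativeCircles.exists_potential (G := G) σ F h
    refine ⟨s, fun x y hxy hF => ?_⟩
    have h1 := hs x y hxy hF
    rw [CommonNegativeCircles.cob_mk] at h1
    unfold PosAfter
    rw [h1]
    have : ∀ a b : ZMod 2, a + b + a + b = 0 := by decide
    exact this _ _
  · rintro ⟨s, hs⟩
    refine CommonNegativeCircles.balancedOff_of_potential σ F s ?_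
    intro x y hxy hF
    have h1 := hs x y hxy hF
    unfold PosAfter at h1
    rw [CommonNegativeCircles.cob_mk]
    have : ∀ a b c : ZMod 2, a + b + c = 0 → a = b + c := by decide
    exact this _ _ _ h1

theorem vertex_iff {V : Type} (G : SimpleGraph V) (σ : Sym2 V → ZMod 2) (v : V) :
    BalancedOffVertex G σ v ↔ BalancedOff G σ {g | v ∈ g} :=
  ⟨fun h => CommonNegativeCircles.off_edges_of_off_vertex σ v h,
    fun h => CommonNegativeCircles.off_vertex_of_off_edges σ v {g | v ∈ g} (fun _ hg => hg) h⟩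

theorem result :
    -- all circles through `e` and `f` have the same sign
    (∀ (V : Type) [Finite V] (G : SimpleGraph V) (σ : Sym2 V → ZMod 2), ThreeConn G →
      ∀ e ∈ G.edgeSet, ∀ f ∈ G.edgeSet, e ≠ f →
        (SameSign G σ e f ↔
          (BalancedOff G σ {e, f} ∨ ∃ v, v ∈ e ∧ v ∈ f ∧ BalancedOffVertex G σ v))) ∧
    -- the negative pair property
    (∀ (V : Type) [Finite V] (G : SimpleGraph V) (σ : Sym2 V → ZMod 2), ThreeConn G →
      (NegPair G σ ↔ (∀ v, ¬ BalancedOffVertex G σ v) ∧
        ∀ e ∈ G.edgeSet, ∀ f ∈ G.edgeSet, e ≠ f → ¬ BalancedOff G σ {e, f})) ∧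
    -- the same in terms of switching
    (∀ (V : Type) [Finite V] (G : SimpleGraph V) (σ : Sym2 V → ZMod 2), ThreeConn G →
      (¬ NegPair G σ ↔ ∃ s : V → ZMod 2,
        (∃ v, ∀ x y, G.Adj x y → v ≠ x → v ≠ y → PosAfter σ s x y) ∨
        ∃ e ∈ G.edgeSet, ∃ f ∈ G.edgeSet, e ≠ f ∧
          ∀ x y, G.Adj x y → s(x, y) ≠ e → s(x, y) ≠ f → PosAfter σ s x y)) := by
  have hB : ∀ (V : Type) [Finite V] (G : SimpleGraph V) (σ : Sym2 V → ZMod 2), ThreeConn G →
      (NegPair G σ ↔ (∀ v, ¬ BalancedOffVertex G σ v) ∧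
        ∀ e ∈ G.edgeSet, ∀ f ∈ G.edgeSet, e ≠ f → ¬ BalancedOff G σ {e, f}) :=
    fun V _ G σ h3 => Pool.Agent.H99.SG.negPair_iff σ h3
  refine ⟨fun V _ G σ h3 e he f hf hef => Pool.Agent.H99.SG.mono_iff σ h3 he hf hef, hB, ?_⟩
  intro V _ G σ h3
  rw [hB V G σ h3]
  constructor
  · intro h
    by_cases hv : ∀ v, ¬ BalancedOffVertex G σ v
    · have h2 : ¬ ∀ e ∈ G.edgeSet, ∀ f ∈ G.edgeSet, e ≠ f → ¬ BalancedOff G σ {e, f} :=
        fun h2 => h ⟨hv, h2⟩
      push Not at h2
      obtain ⟨e, he, f, hf, hef, hb⟩ := h2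
      obtain ⟨s, hs⟩ := (switch_iff G σ _).1 hb
      exact ⟨s, Or.inr ⟨e, he, f, hf, hef, fun x y hxy h1 h2 => hs x y hxy (by simp [h1, h2])⟩⟩
    · push Not at hv
      obtain ⟨v, hv⟩ := hv
      obtain ⟨s, hs⟩ := (switch_iff G σ _).1 ((vertex_iff G σ v).1 hv)
      refine ⟨s, Or.inl ⟨v, fun x y hxy h1 h2 => hs x y hxy ?_⟩⟩
      simp only [Set.mem_ofPred_eq, Sym2.mem_iff, not_or]
      exact ⟨h1, h2⟩
  · rintro ⟨s, ⟨v, hs⟩ | ⟨e, he, f, hf, hef, hs⟩⟩ ⟨h1, h2⟩
    · apply h1 v
      rw [vertex_iff, switch_iff]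
      refine ⟨s, fun x y hxy hF => ?_⟩
      simp only [Set.mem_ofPred_eq, Sym2.mem_iff, not_or] at hF
      exact hs x y hxy hF.1 hF.2
    · apply h2 e he f hf hef
      rw [switch_iff]
      refine ⟨s, fun x y hxy hF => ?_⟩
      simp only [Set.mem_insert_iff, Set.mem_singleton_iff, not_or] at hF
      exact hs x y hxy hF.1 hF.2

end Pool.Agent.Results.MP_790549_co.ThreeConnected
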