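import Pool.Agent.H99.SG.WCert

/-!
# Pairs of edges in a common negative circle of a signed graph: the general case

A signed graph is a graph `G` with `σ : Sym2 V → ZMod 2`; the edge `e` is negative if `σ e = 1` and
positive if `σ e = 0`.

Let `e`, `f` be two edges of a finite signed graph. We say when all circles through `e` and `f` have
the same sign, in two ways, and then which 2-connected signed graphs have the negative pair property.

*Separations.* We use the separations `(X, Y)` of order at most two of the graph which have `e` in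
`X` and `f` in `Y`. They are ordered by `(X, Y) ≤ (X', Y')` if `X ⊆ X'` and `Y' ⊆ Y`; the least one
has `X = {ends of e}` and the greatest one has `Y = {ends of f}`. Between two separations
`(X, Y) ≤ (X', Y')` lies the part of the graph which has the vertices of `X' ∩ Y` which are not in
both separators `X ∩ Y` and `X' ∩ Y'`, and the edges between them which do not have both ends in one
separator. All circles through `e` and `f` have the same sign if and only if between any two
consecutive separations all circles are positive, if and only if this holds for the parts of some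
chain of separations from the least one to the greatest one. Here only circles count all of whose
edges are in common circles with `e` and `f`; which edges these are is known from the theorem of
Watkins and Mesner (1967) on circles through three given vertices, applied to three subdivided edges,
again in terms of 2-separations.

*Certificates.* All circles through `e` and `f` have the same sign if and only if there are two
switching functions `π` and `ρ` which agree in all vertices missed by some circle through `e` and `f`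
and for which `σ(xy) = π(x) + ρ(y)` whenever some circle through `e` and `f` runs from `e` over `x`
and then `y` to `f`. The common sign can be computed from `π` and `ρ`.

In a 3-connected graph the least and the greatest separation are the only ones, so there is just one
part. In a 2-connected graph the 2-separations between `e` and `f` correspond to the way from `e` to
`f` in Tutte's decomposition.
-/

set_option autoImplicit false

namespace Pool.Agent.Results.MP_790549_co.TwoConnected

open SimpleGraph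

/-- the sign of a walk, written additively: `0` is positive, `1` is negative -/
def sgn {V : Type} {G : SimpleGraph V} (σ : Sym2 V → ZMod 2) {u v : V} (w : G.Walk u v) : ZMod 2 :=
  (w.edges.map σ).sum

/-- the negative pair property: every two edges lie in a common negative circle -/
def NegPair {V : Type} (G : SimpleGraph V) (σ : Sym2 V → ZMod 2) : Prop :=
  ∀ e ∈ G.edgeSet, ∀ f ∈ G.edgeSet, e ≠ f →
    ∃ (u : V) (w : G.Walk u u), w.IsCycle ∧ e ∈ w.edges ∧ f ∈ w.edges ∧ sgn σ w = 1

/-- 2-connected: more than two vertices, and connected after the removal of at most one vertex -/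
def TwoConn {V : Type} (G : SimpleGraph V) : Prop :=
  3 ≤ Nat.card V ∧ ∀ S : Set V, S.ncard ≤ 1 → (G.induce Sᶜ).Connected

/-- all circles through both `e` and `f` have the same sign -/
def SameSign {V : Type} (G : SimpleGraph V) (σ : Sym2 V → ZMod 2) (e f : Sym2 V) : Prop :=
  ∃ ε : ZMod 2, ∀ (u : V) (w : G.Walk u u), w.IsCycle → e ∈ w.edges → f ∈ w.edges → sgn σ w = ε

/-- the union of all circles through both `e` and `f` -/
def Common {V : Type} (G : SimpleGraph V) (e f : Sym2 V) : SimpleGraph V :=
  SimpleGraph.fromEdgeSet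
    {g | ∃ (u : V) (w : G.Walk u u), w.IsCycle ∧ e ∈ w.edges ∧ f ∈ w.edges ∧ g ∈ w.edges}

/-- `p = (X, Y)` is a separation of order at most two between `e` and `f`: every vertex is in `X`
or in `Y`, the edge `e` is in `X`, the edge `f` is in `Y`, no edge joins `X \ Y` to `Y \ X`, and `X`
and `Y` have at most two common vertices -/
def Separation {V : Type} (G : SimpleGraph V) (e f : Sym2 V) (p : Set V × Set V) : Prop :=
  ((∀ v, v ∈ p.1 ∨ v ∈ p.2) ∧ (∀ v ∈ e, v ∈ p.1) ∧ (∀ v ∈ f, v ∈ p.2) ∧
    ∀ x y, G.Adj x y → (x ∈ p.1 ∧ y ∈ p.1) ∨ (x ∈ p.2 ∧ y ∈ p.2)) ∧ (p.1 ∩ p.2).ncard ≤ 2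

/-- the order of the separations, from `e` to `f` -/
def Before {V : Type} (p q : Set V × Set V) : Prop := p.1 ⊆ q.1 ∧ q.2 ⊆ p.2

/-- two separations with no other separation between them -/
def Consecutive {V : Type} (G : SimpleGraph V) (e f : Sym2 V) (p q : Set V × Set V) : Prop :=
  Separation G e f p ∧ Separation G e f q ∧ Before p q ∧
    ∀ r, Separation G e f r → Before p r → Before r q → r = p ∨ r = q

/-- `x` and `y` are vertices of the part between the separations `p` and `q`, not both in the
separator of `p` or both in the separator of `q`, and none in both separators -/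
def Between {V : Type} (p q : Set V × Set V) (x y : V) : Prop :=
  x ∈ q.1 ∩ p.2 ∧ y ∈ q.1 ∩ p.2 ∧ ¬ (x ∈ p.1 ∩ p.2 ∧ y ∈ p.1 ∩ p.2) ∧
    ¬ (x ∈ q.1 ∩ q.2 ∧ y ∈ q.1 ∩ q.2) ∧ ¬ (x ∈ p.1 ∩ p.2 ∧ x ∈ q.1 ∩ q.2) ∧
    ¬ (y ∈ p.1 ∩ p.2 ∧ y ∈ q.1 ∩ q.2)

/-- the part of `Common G e f` between `p` and `q` is balanced -/
def BalancedBetween {V : Type} (G : SimpleGraph V) (σ : Sym2 V → ZMod 2) (e f : Sym2 V)
    (p q : Set V × Set V) : Prop :=
  ∀ (u : V) (w : (Common G e f).Walk u u), w.IsCycle →
    (∀ x y, s(x, y) ∈ w.edges → Between p q x y) → sgn σ w = 0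

/-- the parts between any two consecutive separations are balanced -/
def AllBalanced {V : Type} (G : SimpleGraph V) (σ : Sym2 V → ZMod 2) (e f : Sym2 V) : Prop :=
  ∀ p q, Consecutive G e f p q → BalancedBetween G σ e f p q

/-- there is a chain of separations from the ends of `e` to the ends of `f` in which the parts
between two separations next to each other are balanced -/
def BalancedChain {V : Type} (G : SimpleGraph V) (σ : Sym2 V → ZMod 2) (e f : Sym2 V) : Prop :=
  Relation.ReflTransGen
    (fun p q => Separation G e f p ∧ Separation G e f q ∧ Before p q ∧ BalancedBetween G σ e f p q)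
    ({v | v ∈ e}, Set.univ) (Set.univ, {v | v ∈ f})

/-- some circle through `e` and `f` misses `v` -/
def Missed {V : Type} (G : SimpleGraph V) (e f : Sym2 V) (v : V) : Prop :=
  ∃ (u : V) (w : G.Walk u u), w.IsCycle ∧ e ∈ w.edges ∧ f ∈ w.edges ∧ v ∉ w.support

/-- some circle through `e` and `f` runs from `e` over `x` and then `y` to `f`: the circle consists
of `e`, `f` and two disjoint paths `P` and `Q` between the ends of `e` and the ends of `f`, and `P`
has the step from `x` to `y` -/
def Runs {V : Type} (G : SimpleGraph V) (e f : Sym2 V) (x y : V) : Prop :=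
  ∃ (a b c d : V) (P : G.Walk a c) (Q : G.Walk b d), e = s(a, b) ∧ f = s(c, d) ∧ P.IsPath ∧
    Q.IsPath ∧ List.Disjoint P.support Q.support ∧ ∃ t ∈ P.darts, t.fst = x ∧ t.snd = y

/-- the certificate: two switching functions which agree in the missed vertices and make the steps
from `e` to `f` positive, the first one used at the beginning of a step, the second one at its end -/
def Certificate {V : Type} (G : SimpleGraph V) (σ : Sym2 V → ZMod 2) (e f : Sym2 V)
    (π ρ : V → ZMod 2) : Prop :=
  (∀ v, Missed G e f v → π v = ρ v) ∧ ∀ x y, Runs G e f x y → σ s(x, y) = π x + ρ y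

/-- the sign computed from a certificate: `σ e + σ f`, plus `π x` for all vertices `x` not in `f`,
plus `ρ x` for all vertices `x` not in `e` -/
noncomputable def value {V : Type} [Fintype V] (σ : Sym2 V → ZMod 2) (e f : Sym2 V)
    (π ρ : V → ZMod 2) : ZMod 2 :=
  open Classical in
  σ e + σ f + ∑ x ∈ Finset.univ.filter (fun x => x ∉ f), π x +
    ∑ x ∈ Finset.univ.filter (fun x => x ∉ e), ρ x

theorem between_iff {V : Type} (p q : Set V × Set V) (x y : V) :
    Between p q x y ↔ Pool.Agent.H99.SG.Between p q x y := by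
  constructor
  · rintro ⟨⟨a1, a2⟩, ⟨b1, b2⟩, c1, c2, c3, c4⟩
    exact ⟨⟨a1, a2⟩, ⟨b1, b2⟩, fun h => c1 ⟨⟨h.1, a2⟩, ⟨h.2, b2⟩⟩,
      fun h => c2 ⟨⟨a1, h.1⟩, ⟨b1, h.2⟩⟩, fun h => c3 ⟨⟨h.1, a2⟩, ⟨a1, h.2⟩⟩,
      fun h => c4 ⟨⟨h.1, b2⟩, ⟨b1, h.2⟩⟩⟩
  · rintro ⟨⟨a1, a2⟩, ⟨b1, b2⟩, c1, c2, c3, c4⟩
    exact ⟨⟨a1, a2⟩, ⟨b1, b2⟩, fun h => c1 ⟨h.1.1, h.2.1⟩, fun h => c2 ⟨h.1.2, h.2.2⟩,
      fun h => c3 ⟨h.1.1, h.2.2⟩, fun h => c4 ⟨h.1.1, h.2.2⟩⟩

theorem balanced_iff {V : Type} (G : SimpleGraph V) (σ : Sym2 V → ZMod 2) (e f : Sym2 V)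
    (p q : Set V × Set V) : BalancedBetween G σ e f p q ↔
      Pool.Agent.H99.SG.BalSeg (Pool.Agent.H99.SG.Rel G e f) σ p q := by
  constructor
  · intro h u w hw hb
    exact h u w hw (fun x y hxy => (between_iff p q x y).2 (hb x y hxy))
  · intro h u w hw hb
    exact h u w hw (fun x y hxy => (between_iff p q x y).1 (hb x y hxy))

theorem consecutive_iff {V : Type} (G : SimpleGraph V) (e f : Sym2 V) (p q : Set V × Set V) :
    Consecutive G e f p q ↔ Pool.Agent.H99.SG.Tight G e f p q := by
  constructor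
  · rintro ⟨h1, h2, h3, h4⟩
    exact ⟨h1, h2, h3.1, h3.2, fun r hr r1 r2 r3 r4 => h4 r hr ⟨r1, r2⟩ ⟨r3, r4⟩⟩
  · rintro ⟨h1, h2, h3, h4, h5⟩
    exact ⟨h1, h2, ⟨h3, h4⟩, fun r hr r1 r2 => h5 r hr r1.1 r1.2 r2.1 r2.2⟩

theorem all_iff {V : Type} (G : SimpleGraph V) (σ : Sym2 V → ZMod 2) (e f : Sym2 V) :
    AllBalanced G σ e f ↔ ∀ p q, Pool.Agent.H99.SG.Tight G e f p q →
      Pool.Agent.H99.SG.BalSeg (Pool.Agent.H99.SG.Rel G e f) σ p q := by
  constructor
  · intro h p q hpq
    have hc := (consecutive_iff G e f p q).2 hpq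
    exact (balanced_iff G σ e f p q).1 (h p q hc)
  · intro h p q hc
    exact (balanced_iff G σ e f p q).2 (h p q ((consecutive_iff G e f p q).1 hc))

theorem chain_iff {V : Type} (G : SimpleGraph V) (σ : Sym2 V → ZMod 2) (e f : Sym2 V) :
    BalancedChain G σ e f ↔ Relation.ReflTransGen
      (Pool.Agent.H99.SG.Step2 G (Pool.Agent.H99.SG.Rel G e f) σ e f)
      ({v | v ∈ e}, Set.univ) (Set.univ, {v | v ∈ f}) := by
  constructor
  · intro h
    refine Relation.ReflTransGen.mono ?_ _ _ h
    rintro p q ⟨h1, h2, h3, h4⟩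
    exact ⟨h1, h2, h3.1, h3.2, (balanced_iff G σ e f p q).1 h4⟩
  · intro h
    refine Relation.ReflTransGen.mono ?_ _ _ h
    rintro p q ⟨h1, h2, h3, h4, h5⟩
    exact ⟨h1, h2, ⟨h3, h4⟩, (balanced_iff G σ e f p q).2 h5⟩

theorem result :
    -- the negative pair property, by separations
    (∀ (V : Type) [Finite V] (G : SimpleGraph V) (σ : Sym2 V → ZMod 2), TwoConn G →
      (NegPair G σ ↔ ∀ e ∈ G.edgeSet, ∀ f ∈ G.edgeSet, e ≠ f → AllBalanced G σ e f →
        ∀ (u : V) (w : G.Walk u u), w.IsCycle → e ∈ w.edges → f ∈ w.edges → sgn σ w = 1)) ∧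
    -- when all circles through `e` and `f` have the same sign, by separations
    (∀ (V : Type) [Finite V] (G : SimpleGraph V) (σ : Sym2 V → ZMod 2),
      ∀ e ∈ G.edgeSet, ∀ f ∈ G.edgeSet, e ≠ f →
        (SameSign G σ e f ↔ AllBalanced G σ e f) ∧ (SameSign G σ e f ↔ BalancedChain G σ e f)) ∧
    -- the negative pair property, by certificates
    (∀ (V : Type) [Fintype V] (G : SimpleGraph V) (σ : Sym2 V → ZMod 2), TwoConn G →
      (NegPair G σ ↔ ¬ ∃ e ∈ G.edgeSet, ∃ f ∈ G.edgeSet, e ≠ f ∧ ∃ π ρ : V → ZMod 2,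
        Certificate G σ e f π ρ ∧ value σ e f π ρ = 0)) ∧
    -- when all circles through `e` and `f` have the same sign, by certificates
    (∀ (V : Type) [Fintype V] (G : SimpleGraph V) (σ : Sym2 V → ZMod 2),
      ∀ e ∈ G.edgeSet, ∀ f ∈ G.edgeSet, e ≠ f →
        (SameSign G σ e f ↔ ∃ π ρ, Certificate G σ e f π ρ) ∧
        ∀ π ρ, Certificate G σ e f π ρ → ∀ (u : V) (w : G.Walk u u), w.IsCycle → e ∈ w.edges →
          f ∈ w.edges → sgn σ w = value σ e f π ρ) := by
  refine ⟨?_, ?_, ?_, ?_⟩
  · intro V _ G σ h2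
    have h := Pool.Agent.H99.SG.negPair_iff2 (G := G) σ h2
    have h01 : ∀ x : ZMod 2, x ≠ 0 ↔ x = 1 := by decide
    constructor
    · intro hN e he f hf hef ha u w hw hew hfw
      exact (h01 _).1 (h.1 hN e he f hf hef ((all_iff G σ e f).1 ha) u w hw hew hfw)
    · intro hN
      refine h.2 ?_
      intro e he f hf hef ha u w hw hew hfw
      exact (h01 _).2 (hN e he f hf hef ((all_iff G σ e f).2 ha) u w hw hew hfw)
  · intro V _ G σ e he f hf hef
    rw [all_iff, chain_iff]
    exact ⟨Pool.Agent.H99.SG.tight_iff σ he hf hef, Pool.Agent.H99.SG.chain_iff σ he hf hef⟩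
  · intro V _ G σ h2
    constructor
    · rintro hN ⟨e, he, f, hf, hef, π, ρ, hc, h0⟩
      obtain ⟨u, w, hw, hew, hfw, h1⟩ := hN e he f hf hef
      have h3 : sgn σ w = value σ e f π ρ :=
        Pool.Agent.H99.SG.mono_of_wcert σ hef π ρ hc u w hw hew hfw
      rw [h1, h0] at h3
      exact one_ne_zero h3
    · intro hno e he f hf hef
      by_contra hcon
      push Not at hcon
      have hm : ∀ (u : V) (w : G.Walk u u), w.IsCycle → e ∈ w.edges → f ∈ w.edges →
          sgn σ w = 0 := by
        intro u w hw hew hfw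
        have := hcon u w hw hew hfw
        have h0 : ∀ x : ZMod 2, x ≠ 1 → x = 0 := by decide
        exact h0 _ this
      obtain ⟨π, ρ, hc⟩ := Pool.Agent.H99.SG.wcert_of_mono σ he hf hef ⟨0, hm⟩
      obtain ⟨u, w, hw, hew, hfw⟩ := Pool.Agent.H99.SG.common_circle h2 he hf hef
      have h3 : sgn σ w = value σ e f π ρ :=
        Pool.Agent.H99.SG.mono_of_wcert σ hef π ρ hc u w hw hew hfw
      rw [hm u w hw hew hfw] at h3
      exact hno ⟨e, he, f, hf, hef, π, ρ, hc, h3.symm⟩
  · intro V _ G σ e he f hf hef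
    refine ⟨⟨fun h => Pool.Agent.H99.SG.wcert_of_mono σ he hf hef h, ?_⟩, ?_⟩
    · rintro ⟨π, ρ, hc⟩
      exact ⟨_, Pool.Agent.H99.SG.mono_of_wcert σ hef π ρ hc⟩
    · intro π ρ hc
      exact Pool.Agent.H99.SG.mono_of_wcert σ hef π ρ hc

end Pool.Agent.Results.MP_790549_co.TwoConnected
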